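import Pool.Agent.L0h99.RB.Fin

set_option autoImplicit false

/-!
# The ball is the unique maximiser of the first Robin eigenvalue for given surface area

Let `n ≥ 2`, `α < 0` and `R > 0`. Among all bounded Lipschitz domains of `ℝⁿ` whose boundary has the
surface area of the sphere of radius `R` the first eigenvalue of the Robin problem
`-Δu = λu` in `Ω`, `∂u/∂ν + αu = 0` on `∂Ω`, is largest for the balls of radius `R`, and only for
them. The inequality is stable, and it holds for all nonempty bounded open sets, connected or not,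
whose topological boundary has at most this surface area: the eigenvalue of `Ω` is smaller than that
of the ball by at least `c` times the sum of the deficits of the surface area and of the volume.
-/

open MeasureTheory Set Metric Filter Topology
open scoped ENNReal NNReal InnerProductSpace

namespace Pool.Agent.Results.MP_7b7880_an.BallUniqueMaximiser

open Pool.Agent.Helper876.Rob Pool.Agent.L0h99.RB

/-- Let `n ≥ 2`, `R > 0`, `α < 0`, and let `robin Ω α` be the first Robin eigenvalue `λ₁^α(Ω)`, the
infimum of the Rayleigh quotient over `H¹(Ω)`.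
(1) The value of all balls of radius `R` is the same negative real number `-k`.
(2) If `Ω` is a bounded Lipschitz domain whose boundary has the surface area of the sphere of radius
`R`, then `λ₁^α(Ω) ≤ λ₁^α(B_R)`, with equality only if `Ω` is a ball of radius `R`.
(3) There is `c > 0` such that for all nonempty bounded open sets `Ω` with `|∂Ω| ≤ |∂B_R|` one has
`|Ω| ≤ |B_R|` and `λ₁^α(Ω) + c (|∂B_R| - |∂Ω| + |B_R| - |Ω|) ≤ λ₁^α(B_R)`; equality of the
eigenvalues implies that `Ω` is a ball of radius `R` if `Ω` is the interior of its closure. -/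
theorem result (n : ℕ) (hn : 2 ≤ n) (R α : ℝ) (hR : 0 < R) (hα : α < 0) :
    (∃ k : ℝ, 0 < k ∧ ∀ x : E n, robin (ball x R) α = ((-k : ℝ) : EReal)) ∧
    (∀ Ω : Set (E n), IsLipschitzDomain Ω →
      surf n (frontier Ω) = surf n (sphere (0 : E n) R) →
      robin Ω α ≤ robin (ball (0 : E n) R) α ∧
        (robin Ω α = robin (ball (0 : E n) R) α ↔ ∃ x : E n, Ω = ball x R)) ∧
    ∃ c : ℝ, 0 < c ∧ ∀ Ω : Set (E n), IsOpen Ω → Ω.Nonempty → Bornology.IsBounded Ω →
      surf n (frontier Ω) ≤ surf n (sphere (0 : E n) R) →
      volume Ω ≤ volume (ball (0 : E n) R) ∧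
      robin Ω α + ((c * (((surf n (sphere (0 : E n) R)).toReal - (surf n (frontier Ω)).toReal) +
        ((volume (ball (0 : E n) R)).toReal - (volume Ω).toReal)) : ℝ) : EReal) ≤
          robin (ball (0 : E n) R) α ∧
      (robin Ω α = robin (ball (0 : E n) R) α → interior (closure Ω) = Ω →
        ∃ x : E n, Ω = ball x R) := by
  obtain ⟨k, c, hk, hc, hball, hmain⟩ := fin_main hn hR hα
  refine ⟨⟨k, hk, hball⟩, ?_, c, hc, hmain⟩
  intro Ω hΩ hσ
  obtain ⟨h1, h2, h3⟩ := hmain Ω hΩ.isOpen hΩ.isConnected.nonempty hΩ.isBounded hσ.le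
  refine ⟨?_, ?_, ?_⟩
  · refine le_trans ?_ h2
    have h4 : 0 ≤ c * (((surf n (sphere (0 : E n) R)).toReal - (surf n (frontier Ω)).toReal) +
        ((volume (ball (0 : E n) R)).toReal - (volume Ω).toReal)) := by
      rw [hσ, sub_self, zero_add]
      have h5 := ENNReal.toReal_mono measure_ball_lt_top.ne h1
      exact mul_nonneg hc.le (by linarith)
    calc robin Ω α = robin Ω α + 0 := (add_zero _).symm
      _ ≤ _ := add_le_add_right (by exact_mod_cast h4) _
  · intro heq
    exact h3 heq (Pool.Agent.Helper876.LLipG.lip_int n Ω hΩ.isOpen hΩ.graph)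
  · rintro ⟨x, rfl⟩
    rw [hball x, hball 0]

end Pool.Agent.Results.MP_7b7880_an.BallUniqueMaximiser
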